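import Mathlib
import Pool.Agent.V11117.Spec

namespace Pool.Agent.Results.MP_4cbb29_co.DoubleBrooms

open Finset Matrix Polynomial Pool.Agent.V11117

section defs
variable {V : Type} [Fintype V] [DecidableEq V]

/-- `A ∈ S(G)`: `A` is real symmetric and, off the diagonal, its nonzero entries are exactly at
the edges of `G`. -/
def InS (G : SimpleGraph V) (A : Matrix V V ℝ) : Prop :=
  A.IsSymm ∧ ∀ i j, i ≠ j → (A i j ≠ 0 ↔ G.Adj i j)

/-- `q(G)`: the minimum number of distinct eigenvalues of a matrix in `S(G)`. -/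
noncomputable def q (G : SimpleGraph V) : ℕ :=
  sInf {k : ℕ | ∃ A : Matrix V V ℝ, InS G A ∧ (spectrum ℝ A).ncard = k}

/-- `G` achieves the multiplicity bipartition `[N - k, k]` (`1 ≤ k ≤ N / 2`): some matrix in
`S(G)` has exactly two distinct eigenvalues `a, b`, with multiplicities `N - k` and `k`. -/
def Achieves (G : SimpleGraph V) (k : ℕ) : Prop :=
  1 ≤ k ∧ 2 * k ≤ Fintype.card V ∧ ∃ A : Matrix V V ℝ, InS G A ∧ ∃ a b : ℝ, a ≠ b ∧
    A.charpoly = (X - C a) ^ (Fintype.card V - k) * (X - C b) ^ k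

/-- `MB(G)`: the least `k` such that `G` achieves `[N - k, k]`. -/
noncomputable def MB (G : SimpleGraph V) : ℕ := sInf {k : ℕ | Achieves G k}

end defs

/-- The tree `S^r_{m,n}`: a path on the `r` vertices `inl 0, ..., inl (r-1)`, with `m` leaves
`inr (inl _)` attached to the first and `n` leaves `inr (inr _)` attached to the last vertex. -/
def T (r m n : ℕ) : SimpleGraph (Fin r ⊕ (Fin m ⊕ Fin n)) where
  Adj x y := match x, y with
    | Sum.inl i, Sum.inl j => i.val + 1 = j.val ∨ j.val + 1 = i.val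
    | Sum.inl i, Sum.inr (Sum.inl _) => i.val = 0
    | Sum.inl i, Sum.inr (Sum.inr _) => i.val + 1 = r
    | Sum.inr (Sum.inl _), Sum.inl i => i.val = 0
    | Sum.inr (Sum.inr _), Sum.inl i => i.val + 1 = r
    | Sum.inr _, Sum.inr _ => False
  symm := ⟨fun x y h => by
    rcases x with i | (i | i) <;> rcases y with j | (j | j) <;> simp_all <;> omega⟩
  loopless := ⟨fun x h => by
    rcases x with i | (i | i) <;> simp_all⟩

section general
variable {V : Type} [Fintype V] [DecidableEq V]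

lemma herm_of {G : SimpleGraph V} {A : Matrix V V ℝ} (h : InS G A) : A.IsHermitian := by
  rw [Matrix.IsHermitian, Matrix.conjTranspose_eq_transpose_of_trivial]
  exact h.1

/-- a graph with an edge has `q ≥ 2` -/
lemma two_le_ncard {G : SimpleGraph V} {x y : V} (hxy : G.Adj x y) {A : Matrix V V ℝ}
    (h : InS G A) : 2 ≤ (spectrum ℝ A).ncard := by
  have hA := herm_of h
  by_contra hcon
  have hfin : (spectrum ℝ A).Finite := Matrix.finite_real_spectrum
  have h1 : (spectrum ℝ A).ncard ≤ 1 := by omega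
  have h2 : ∀ i, hA.eigenvalues i = hA.eigenvalues x := fun i =>
    (Set.ncard_le_one hfin).mp h1 _ (hA.eigenvalues_mem_spectrum_real i) _
      (hA.eigenvalues_mem_spectrum_real x)
  obtain ⟨U, u1, u2, u3⟩ := Spec.spec hA
  have h3 : hA.eigenvalues = fun _ => hA.eigenvalues x := funext h2
  have h4 : A = hA.eigenvalues x • 1 := by
    conv_lhs => rw [u3]
    rw [h3]
    have : (diagonal (fun _ : V => hA.eigenvalues x)) = hA.eigenvalues x • (1 : Matrix V V ℝ) := by
      rw [← Matrix.diagonal_one, ← Matrix.diagonal_smul]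
      congr 1
      funext i
      simp
    rw [this, Matrix.mul_smul, Matrix.mul_one, Matrix.smul_mul, u2]
  have h5 : A x y ≠ 0 := (h.2 x y hxy.ne).mpr hxy
  apply h5
  rw [h4]
  simp [hxy.ne]

/-- planar orthogonality chain -/
lemma planar {x0 y0 x1 y1 x2 y2 x3 y3 : ℝ} (h01 : x0 * x1 + y0 * y1 = 0)
    (h12 : x1 * x2 + y1 * y2 = 0) (h23 : x2 * x3 + y2 * y3 = 0)
    (h1 : x1 ^ 2 + y1 ^ 2 ≠ 0) (h2 : x2 ^ 2 + y2 ^ 2 ≠ 0) : x0 * x3 + y0 * y3 = 0 := by
  have e0 : x0 * (x1 ^ 2 + y1 ^ 2) = y1 * (x0 * y1 - y0 * x1) := by linear_combination x1 * h01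
  have e0' : y0 * (x1 ^ 2 + y1 ^ 2) = -x1 * (x0 * y1 - y0 * x1) := by linear_combination y1 * h01
  have e3 : x3 * (x2 ^ 2 + y2 ^ 2) = y2 * (x3 * y2 - y3 * x2) := by linear_combination x2 * h23
  have e3' : y3 * (x2 ^ 2 + y2 ^ 2) = -x2 * (x3 * y2 - y3 * x2) := by linear_combination y2 * h23
  have h : (x0 * x3 + y0 * y3) * ((x1 ^ 2 + y1 ^ 2) * (x2 ^ 2 + y2 ^ 2)) = 0 := by
    have : (x0 * x3 + y0 * y3) * ((x1 ^ 2 + y1 ^ 2) * (x2 ^ 2 + y2 ^ 2))
      = (x0 * (x1 ^ 2 + y1 ^ 2)) * (x3 * (x2 ^ 2 + y2 ^ 2))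
        + (y0 * (x1 ^ 2 + y1 ^ 2)) * (y3 * (x2 ^ 2 + y2 ^ 2)) := by ring
    rw [this, e0, e0', e3, e3']
    linear_combination (x0 * y1 - y0 * x1) * (x3 * y2 - y3 * x2) * h12
  exact (mul_eq_zero.mp h).resolve_right (mul_ne_zero h1 h2)

/-- If `T` contains an induced path on four vertices then `Tᶜ` achieves no `[N - k, k]` with
`k ≤ 2`. -/
lemma not_achieves {T : SimpleGraph V} {p0 p1 p2 p3 : V} (a01 : T.Adj p0 p1) (a12 : T.Adj p1 p2)
    (a23 : T.Adj p2 p3) (n03 : ¬ T.Adj p0 p3) (n02 : ¬ T.Adj p0 p2) (n13 : ¬ T.Adj p1 p3)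
    (d03 : p0 ≠ p3) (d02 : p0 ≠ p2) (d13 : p1 ≠ p3) {k : ℕ} (hk : k ≤ 2) : ¬ Achieves Tᶜ k := by
  rintro ⟨-, hk2, A, hA, a, b, hab, hch⟩
  have hH := herm_of hA
  obtain ⟨U, u1, u2, u3⟩ := Spec.spec hH
  set lam := hH.eigenvalues with hlam
  set K := univ.filter (fun i => lam i = b) with hK
  -- eigenvalues are `a` or `b`
  have hab' : ∀ i, lam i = a ∨ lam i = b := by
    intro i
    have h1 : A.charpoly.eval (lam i) = 0 := by
      have h2 := hH.charpoly_eq
      rw [h2, Polynomial.eval_prod]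
      apply Finset.prod_eq_zero (mem_univ i)
      simp [hlam]
    rw [hch, Polynomial.eval_mul, Polynomial.eval_pow, Polynomial.eval_pow, mul_eq_zero] at h1
    rcases h1 with h | h
    · left
      have := eq_zero_of_pow_eq_zero h
      simpa [sub_eq_zero] using this
    · right
      have := eq_zero_of_pow_eq_zero h
      simpa [sub_eq_zero] using this
  have hcard : K.card ≤ 2 := by
    have h1 : A.charpoly.rootMultiplicity b = K.card := by
      rw [← Polynomial.count_roots, hH.roots_charpoly_eq_eigenvalues, Multiset.count_map, hK,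
        Finset.card_def, Finset.filter_val]
      congr 1
      apply Multiset.filter_congr
      intro i _
      simp [eq_comm, hlam]
    have h2 : A.charpoly.rootMultiplicity b = k := by
      have hne : ((X - C a) ^ (Fintype.card V - k) * (X - C b) ^ k : ℝ[X]) ≠ 0 :=
        mul_ne_zero (pow_ne_zero _ (X_sub_C_ne_zero _)) (pow_ne_zero _ (X_sub_C_ne_zero _))
      rw [hch, Polynomial.rootMultiplicity_mul hne, Polynomial.rootMultiplicity_X_sub_C_pow]
      rw [Polynomial.rootMultiplicity_eq_zero]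
      · simp
      · intro hroot
        rw [Polynomial.IsRoot, Polynomial.eval_pow] at hroot
        have := eq_zero_of_pow_eq_zero hroot
        simp [sub_eq_zero] at this
        exact hab this.symm
    omega
  -- entries
  have hentry : ∀ i j, i ≠ j → A i j = (b - a) * ∑ l ∈ K, U i l * U j l := by
    intro i j hij
    have e1 : A i j = ∑ l, U i l * lam l * U j l := by
      conv_lhs => rw [u3]
      rw [Matrix.mul_apply]
      refine Finset.sum_congr rfl fun l _ => ?_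
      rw [Matrix.mul_diagonal, Matrix.transpose_apply]
    have e2 : ∑ l, U i l * U j l = 0 := by
      have := congrFun (congrFun u2 i) j
      rw [Matrix.mul_apply, Matrix.one_apply_ne hij] at this
      exact this
    have e3 : ∀ l, U i l * lam l * U j l
        = a * (U i l * U j l) + (b - a) * (if lam l = b then U i l * U j l else 0) := by
      intro l
      rcases hab' l with h | h
      · rw [h, if_neg hab]; ring
      · rw [h, if_pos rfl]; ring
    rw [e1]
    simp_rw [e3]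
    rw [Finset.sum_add_distrib, ← Finset.mul_sum, ← Finset.mul_sum, e2, ← Finset.sum_filter]
    ring
  have hxy : ∃ x y : V → ℝ, ∀ i j, ∑ l ∈ K, U i l * U j l = x i * x j + y i * y j := by
    have h3 : K.card = 0 ∨ K.card = 1 ∨ K.card = 2 := by omega
    rcases h3 with h | h | h
    · rw [Finset.card_eq_zero] at h
      exact ⟨fun _ => 0, fun _ => 0, fun i j => by rw [h]; simp⟩
    · obtain ⟨l, hl⟩ := Finset.card_eq_one.mp h
      exact ⟨fun i => U i l, fun _ => 0, fun i j => by rw [hl]; simp⟩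
    · obtain ⟨l, l', hne, hl⟩ := Finset.card_eq_two.mp h
      exact ⟨fun i => U i l, fun i => U i l', fun i j => by rw [hl, Finset.sum_pair hne]⟩
  obtain ⟨x, y, hxy⟩ := hxy
  have hba : b - a ≠ 0 := sub_ne_zero.mpr hab.symm
  have horth : ∀ i j, i ≠ j → (x i * x j + y i * y j = 0 ↔ T.Adj i j) := by
    intro i j hij
    have h1 := hA.2 i j hij
    rw [hentry i j hij, hxy, SimpleGraph.compl_adj] at h1
    constructor
    · intro h
      by_contra hT
      exact (h1.mpr ⟨hij, hT⟩) (by rw [h, mul_zero])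
    · intro hT
      by_contra h
      exact (h1.mp (mul_ne_zero hba h)).2 hT
  have hnz1 : x p1 ^ 2 + y p1 ^ 2 ≠ 0 := by
    intro h
    have hx : x p1 = 0 := by nlinarith [sq_nonneg (x p1), sq_nonneg (y p1)]
    have hy : y p1 = 0 := by nlinarith [sq_nonneg (x p1), sq_nonneg (y p1)]
    exact n13 ((horth p1 p3 d13).mp (by rw [hx, hy]; ring))
  have hnz2 : x p2 ^ 2 + y p2 ^ 2 ≠ 0 := by
    intro h
    have hx : x p2 = 0 := by nlinarith [sq_nonneg (x p2), sq_nonneg (y p2)]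
    have hy : y p2 = 0 := by nlinarith [sq_nonneg (x p2), sq_nonneg (y p2)]
    exact n02 ((horth p0 p2 d02).mp (by rw [hx, hy]; ring))
  exact n03 ((horth p0 p3 d03).mp (planar ((horth p0 p1 a01.ne).mpr a01)
    ((horth p1 p2 a12.ne).mpr a12) ((horth p2 p3 a23.ne).mpr a23) hnz1 hnz2))

/-- A Parseval frame in `ℝ³` whose orthogonality graph is `T` gives `[N - 3, 3]` for `Tᶜ`. -/
lemma frame_achieves {T : SimpleGraph V} (hcard : 6 ≤ Fintype.card V) (v : V → Fin 3 → ℝ)
    (hP : ∀ p p', ∑ i, v i p * v i p' = if p = p' then 1 else 0)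
    (hT : ∀ i j, i ≠ j → (∑ p, v i p * v j p = 0 ↔ T.Adj i j)) :
    Achieves Tᶜ 3 ∧ ∃ A : Matrix V V ℝ, InS Tᶜ A ∧ (spectrum ℝ A).ncard = 2 := by
  obtain ⟨P, hPd⟩ : ∃ P : Matrix V V ℝ, ∀ i j, P i j = ∑ p, v i p * v j p :=
    ⟨Matrix.of fun i j => ∑ p, v i p * v j p, fun i j => rfl⟩
  have hsymm : P.IsSymm := by
    ext i j
    rw [Matrix.transpose_apply, hPd, hPd]
    exact Finset.sum_congr rfl fun p _ => mul_comm _ _
  have hInS : InS Tᶜ P := by
    refine ⟨hsymm, fun i j hij => ?_⟩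
    rw [hPd, SimpleGraph.compl_adj]
    constructor
    · intro h
      exact ⟨hij, fun hadj => h ((hT i j hij).mpr hadj)⟩
    · intro h h0
      exact h.2 ((hT i j hij).mp h0)
  have hH := herm_of hInS
  have hsq : P * P = P := by
    ext i j
    rw [Matrix.mul_apply]
    simp only [hPd]
    have h1 : ∀ k, (∑ p, v i p * v k p) * (∑ p, v k p * v j p)
        = ∑ p, ∑ p', v i p * v j p' * (v k p * v k p') := by
      intro k
      rw [Finset.sum_mul_sum]
      exact Finset.sum_congr rfl fun p _ => Finset.sum_congr rfl fun p' _ => by ring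
    simp_rw [h1]
    rw [Finset.sum_comm]
    refine Finset.sum_congr rfl fun p _ => ?_
    rw [Finset.sum_comm]
    simp_rw [← Finset.mul_sum, hP]
    simp
  have htr : P.trace = 3 := by
    rw [Matrix.trace]
    simp only [Matrix.diag_apply, hPd]
    rw [Finset.sum_comm]
    simp_rw [hP]
    simp
  have h01 : ∀ i, hH.eigenvalues i = 0 ∨ hH.eigenvalues i = 1 := by
    intro i
    obtain ⟨y, hy, h⟩ := Spec.exists_vec hH i
    have h2 : (P * P) *ᵥ y = hH.eigenvalues i • (hH.eigenvalues i • y) := by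
      rw [← Matrix.mulVec_mulVec, h, Matrix.mulVec_smul, h]
    rw [hsq, h, smul_smul, ← sub_eq_zero, ← sub_smul, smul_eq_zero] at h2
    rcases h2 with h2 | h2
    · have : hH.eigenvalues i * (1 - hH.eigenvalues i) = 0 := by linarith
      rcases mul_eq_zero.mp this with h3 | h3
      · left; exact h3
      · right; linarith
    · exact absurd h2 hy
  set K := univ.filter (fun i => hH.eigenvalues i = 1) with hK
  have hKcard : K.card = 3 := by
    have h1 := Spec.trace_pow hH 1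
    rw [pow_one, htr] at h1
    simp only [pow_one] at h1
    have h2 : ∑ i, hH.eigenvalues i = ∑ i, if hH.eigenvalues i = 1 then (1 : ℝ) else 0 := by
      refine Finset.sum_congr rfl fun i _ => ?_
      rcases h01 i with h | h
      · rw [h]; simp
      · rw [h]; simp
    rw [h2, ← Finset.sum_filter, Finset.sum_const, nsmul_eq_mul, mul_one] at h1
    exact_mod_cast h1.symm
  have hch : P.charpoly = (X - C (0:ℝ)) ^ (Fintype.card V - 3) * (X - C (1:ℝ)) ^ 3 := by
    rw [hH.charpoly_eq]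
    have h1 : ∀ i, (X - C ((hH.eigenvalues i : ℝ) : ℝ) : ℝ[X])
        = if hH.eigenvalues i = 1 then X - C 1 else X - C 0 := by
      intro i
      rcases h01 i with h | h
      · rw [h]; simp
      · rw [h]; simp
    have h2 : ∏ i, (X - C ((hH.eigenvalues i : ℝ) : ℝ) : ℝ[X])
        = ∏ i, if hH.eigenvalues i = 1 then (X - C (1:ℝ) : ℝ[X]) else X - C 0 :=
      Finset.prod_congr rfl fun i _ => h1 i
    have h3 : (univ.filter (fun i => ¬ hH.eigenvalues i = 1)).card = Fintype.card V - 3 := by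
      have := Finset.card_filter_add_card_filter_not (s := (univ : Finset V))
        (fun i => hH.eigenvalues i = 1)
      rw [Finset.card_univ] at this
      rw [← hK, hKcard] at this
      omega
    refine Eq.trans h2 ?_
    rw [Finset.prod_ite, Finset.prod_const, Finset.prod_const, ← hK, hKcard, h3, mul_comm]
  refine ⟨⟨by norm_num, by omega, P, hInS, 0, 1, by norm_num, hch⟩, P, hInS, ?_⟩
  have hspec : spectrum ℝ P = {0, 1} := by
    rw [hH.spectrum_real_eq_range_eigenvalues]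
    ext t
    simp only [Set.mem_range, Set.mem_insert_iff, Set.mem_singleton_iff]
    constructor
    · rintro ⟨i, rfl⟩
      exact h01 i
    · rintro (rfl | rfl)
      · have : ∃ i, i ∉ K := by
          by_contra hcon
          push Not at hcon
          have h4 : K = univ := Finset.eq_univ_iff_forall.mpr hcon
          rw [h4, Finset.card_univ] at hKcard
          omega
        obtain ⟨i, hi⟩ := this
        refine ⟨i, ?_⟩
        rcases h01 i with h | h
        · exact h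
        · exact absurd (mem_filter.mpr ⟨mem_univ i, h⟩) hi
      · have : K.Nonempty := by rw [← Finset.card_pos]; omega
        obtain ⟨i, hi⟩ := this
        exact ⟨i, (mem_filter.mp hi).2⟩
  rw [hspec, Set.ncard_pair (by norm_num)]

/-- the two facts together -/
lemma conclude {T : SimpleGraph V} (hcard : 6 ≤ Fintype.card V) (v : V → Fin 3 → ℝ)
    (hP : ∀ p p', ∑ i, v i p * v i p' = if p = p' then 1 else 0)
    (hT : ∀ i j, i ≠ j → (∑ p, v i p * v j p = 0 ↔ T.Adj i j))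
    {p0 p1 p2 p3 : V} (a01 : T.Adj p0 p1) (a12 : T.Adj p1 p2)
    (a23 : T.Adj p2 p3) (n03 : ¬ T.Adj p0 p3) (n02 : ¬ T.Adj p0 p2) (n13 : ¬ T.Adj p1 p3)
    (d03 : p0 ≠ p3) (d02 : p0 ≠ p2) (d13 : p1 ≠ p3) :
    q Tᶜ = 2 ∧ MB Tᶜ = 3 := by
  obtain ⟨h1, h2⟩ := frame_achieves hcard v hP hT
  constructor
  · apply le_antisymm
    · exact Nat.sInf_le h2
    · apply le_csInf ⟨2, h2⟩
      rintro k ⟨A, hA, rfl⟩
      have hadj : Tᶜ.Adj p0 p3 := by
        rw [SimpleGraph.compl_adj]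
        exact ⟨d03, n03⟩
      exact two_le_ncard hadj hA
  · apply le_antisymm
    · exact Nat.sInf_le h1
    · apply le_csInf ⟨3, h1⟩
      intro k hk
      by_contra hlt
      exact not_achieves a01 a12 a23 n03 n02 n13 d03 d02 d13 (by omega) hk

end general

section frames

lemma exists_root (x : ℝ) (hx : 0 < x) : ∃ s : ℝ, 0 < s ∧ s ^ 2 = x :=
  ⟨√x, Real.sqrt_pos.mpr hx, Real.sq_sqrt hx.le⟩

/-- the vector `(-k, 1, ..., 1)` -/
noncomputable def Q (k : ℕ) : Fin (k + 1) → ℝ := Fin.cons (-(k : ℝ)) (fun _ => 1)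

lemma Q_sum (k : ℕ) : ∑ i, Q k i = 0 := by
  rw [Fin.sum_univ_succ]
  simp [Q]

lemma Q_sq (k : ℕ) : ∑ i, Q k i ^ 2 = ((k : ℝ) + 1) * k := by
  rw [Fin.sum_univ_succ]
  simp [Q]
  ring

lemma Q_ne (k : ℕ) (hk : 1 ≤ k) (i : Fin (k + 1)) : Q k i ≠ 0 := by
  have : (1 : ℝ) ≤ k := by exact_mod_cast hk
  refine Fin.cases ?_ (fun i => ?_) i
  · simp [Q]; omega
  · simp [Q]

lemma Q_mul_ge (k : ℕ) {i j : Fin (k + 1)} (hij : i ≠ j) : -(k : ℝ) ≤ Q k i * Q k j := by
  have hk : (0 : ℝ) ≤ k := Nat.cast_nonneg k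
  induction i using Fin.cases with
  | zero =>
    induction j using Fin.cases with
    | zero => exact absurd rfl hij
    | succ j => simp [Q]
  | succ i =>
    induction j using Fin.cases with
    | zero => simp [Q]
    | succ j => simp [Q]; linarith

lemma Q_abs (k : ℕ) (hk : 1 ≤ k) (i : Fin (k + 1)) : |Q k i| ≤ k := by
  have h1 : (1 : ℝ) ≤ k := by exact_mod_cast hk
  refine Fin.cases ?_ (fun i => ?_) i
  · simp [Q]
  · simpa [Q] using h1

/-- a leaf vector `A + c B` -/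
def vec (A B : Fin 3 → ℝ) (c : ℝ) : Fin 3 → ℝ := fun p => A p + c * B p

lemma sum_vec (k : ℕ) (A B : Fin 3 → ℝ) (p p' : Fin 3) :
    ∑ i, vec A B (Q k i) p * vec A B (Q k i) p'
      = ((k : ℝ) + 1) * (A p * A p') + ((k : ℝ) + 1) * k * (B p * B p') := by
  have h : ∀ i, vec A B (Q k i) p * vec A B (Q k i) p'
      = A p * A p' + (A p * B p' + B p * A p') * Q k i + (B p * B p') * Q k i ^ 2 := by
    intro i; unfold vec; ring
  have h1 : ∑ i : Fin (k + 1), A p * A p' = ((k : ℝ) + 1) * (A p * A p') := by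
    simp
  simp_rw [h]
  rw [Finset.sum_add_distrib, Finset.sum_add_distrib, h1,
    ← Finset.mul_sum (a := A p * B p' + B p * A p'), ← Finset.mul_sum (a := B p * B p'), Q_sum,
    Q_sq]
  ring

lemma inner_vec (A B A' B' : Fin 3 → ℝ) (c c' : ℝ) : ∑ p, vec A B c p * vec A' B' c' p
    = (A 0 * A' 0 + A 1 * A' 1 + A 2 * A' 2) + c' * (A 0 * B' 0 + A 1 * B' 1 + A 2 * B' 2)
      + c * (B 0 * A' 0 + B 1 * A' 1 + B 2 * A' 2)
      + c * c' * (B 0 * B' 0 + B 1 * B' 1 + B 2 * B' 2) := by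
  rw [Fin.sum_univ_three]
  unfold vec
  ring

/-- bookkeeping: it is enough to check the pairs in a fixed order -/
lemma check {r m n : ℕ} (v : Fin r ⊕ (Fin m ⊕ Fin n) → Fin 3 → ℝ)
    (hss : ∀ i j : Fin r, i < j →
      (∑ p, v (Sum.inl i) p * v (Sum.inl j) p = 0 ↔ i.val + 1 = j.val))
    (hsa : ∀ (i : Fin r) (j : Fin m),
      (∑ p, v (Sum.inl i) p * v (Sum.inr (Sum.inl j)) p = 0 ↔ i.val = 0))
    (hsb : ∀ (i : Fin r) (j : Fin n),
      (∑ p, v (Sum.inl i) p * v (Sum.inr (Sum.inr j)) p = 0 ↔ i.val + 1 = r))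
    (haa : ∀ i j, i ≠ j → ∑ p, v (Sum.inr (Sum.inl i)) p * v (Sum.inr (Sum.inl j)) p ≠ 0)
    (hbb : ∀ i j, i ≠ j → ∑ p, v (Sum.inr (Sum.inr i)) p * v (Sum.inr (Sum.inr j)) p ≠ 0)
    (hab : ∀ i j, ∑ p, v (Sum.inr (Sum.inl i)) p * v (Sum.inr (Sum.inr j)) p ≠ 0) :
    ∀ x y, x ≠ y → (∑ p, v x p * v y p = 0 ↔ (T r m n).Adj x y) := by
  have hsy : ∀ x y, ∑ p, v x p * v y p = ∑ p, v y p * v x p := fun x y =>
    Finset.sum_congr rfl fun p _ => mul_comm _ _
  intro x y hxy
  rcases x with i | (i | i) <;> rcases y with j | (j | j)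
  · have hij : i ≠ j := fun h => hxy (by rw [h])
    rcases lt_or_gt_of_ne hij with h | h
    · rw [hss i j h]
      have : i.val < j.val := h
      simp only [T]
      omega
    · rw [hsy, hss j i h]
      have : j.val < i.val := h
      simp only [T]
      omega
  · rw [hsa]; rfl
  · rw [hsb]; rfl
  · rw [hsy, hsa]; rfl
  · exact iff_of_false (haa i j (fun h => hxy (by rw [h]))) (by simp [T])
  · exact iff_of_false (hab i j) (by simp [T])
  · rw [hsy, hsb]; rfl
  · rw [hsy]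
    exact iff_of_false (hab j i) (by simp [T])
  · exact iff_of_false (hbb i j (fun h => hxy (by rw [h]))) (by simp [T])

/-- the case `r = 2` -/
lemma case2 (k l : ℕ) (hk : 1 ≤ k) (hl : 1 ≤ l) :
    q (T 2 (k + 1) (l + 1))ᶜ = 2 ∧ MB (T 2 (k + 1) (l + 1))ᶜ = 3 := by
  have hk1 : (1 : ℝ) ≤ k := by exact_mod_cast hk
  have hl1 : (1 : ℝ) ≤ l := by exact_mod_cast hl
  obtain ⟨s, hs0, hs⟩ := exists_root (3 / (4 * ((k : ℝ) + 1))) (by positivity)
  obtain ⟨t, ht0, ht⟩ := exists_root (1 / (2 * (((k : ℝ) + 1) * k))) (by positivity)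
  obtain ⟨s', hs0', hs'⟩ := exists_root (3 / (4 * ((l : ℝ) + 1))) (by positivity)
  obtain ⟨t', ht0', ht'⟩ := exists_root (1 / (2 * (((l : ℝ) + 1) * l))) (by positivity)
  obtain ⟨v, v0, v1, va, vb⟩ : ∃ v : Fin 2 ⊕ (Fin (k + 1) ⊕ Fin (l + 1)) → Fin 3 → ℝ,
      v (Sum.inl 0) = ![1 / 2, 0, 0] ∧ v (Sum.inl 1) = ![0, 1 / 2, 0] ∧
      (∀ i, v (Sum.inr (Sum.inl i)) = vec ![0, s, 0] ![0, 0, t] (Q k i)) ∧
      (∀ j, v (Sum.inr (Sum.inr j)) = vec ![s', 0, 0] ![0, 0, t'] (Q l j)) :=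
    ⟨fun x => match x with
      | Sum.inl i => ![![1 / 2, 0, 0], ![0, 1 / 2, 0]] i
      | Sum.inr (Sum.inl i) => vec ![0, s, 0] ![0, 0, t] (Q k i)
      | Sum.inr (Sum.inr j) => vec ![s', 0, 0] ![0, 0, t'] (Q l j),
      rfl, rfl, fun _ => rfl, fun _ => rfl⟩
  have hks : ((k : ℝ) + 1) * s ^ 2 = 3 / 4 := by rw [hs]; field_simp
  have hls : ((l : ℝ) + 1) * s' ^ 2 = 3 / 4 := by rw [hs']; field_simp
  have hkt : t ^ 2 * (((k : ℝ) + 1) * k) = 1 / 2 := by rw [ht]; field_simp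
  have hlt : t' ^ 2 * (((l : ℝ) + 1) * l) = 1 / 2 := by rw [ht']; field_simp
  have hst : t ^ 2 * k < s ^ 2 := by
    have : ((k : ℝ) + 1) * (t ^ 2 * k) < ((k : ℝ) + 1) * s ^ 2 := by linarith
    exact lt_of_mul_lt_mul_left this (by linarith)
  have hst' : t' ^ 2 * l < s' ^ 2 := by
    have : ((l : ℝ) + 1) * (t' ^ 2 * l) < ((l : ℝ) + 1) * s' ^ 2 := by linarith
    exact lt_of_mul_lt_mul_left this (by linarith)
  have hP : ∀ p p', ∑ i, v i p * v i p' = if p = p' then 1 else 0 := by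
    intro p p'
    rw [Fintype.sum_sum_type, Fintype.sum_sum_type, Fin.sum_univ_two, v0, v1]
    simp only [va, vb, sum_vec]
    fin_cases p <;> fin_cases p' <;> simp <;> linarith
  have hT := check v (by
      intro i j hij
      fin_cases i <;> fin_cases j <;> simp at hij ⊢
      rw [v0, v1, Fin.sum_univ_three]; simp) (by
      intro i j
      fin_cases i
      · simp [v0, va, Fin.sum_univ_three, vec]
      · simp [v1, va, Fin.sum_univ_three, vec]; exact hs0.ne') (by
      intro i j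
      fin_cases i
      · simp [v0, vb, Fin.sum_univ_three, vec]; exact hs0'.ne'
      · simp [v1, vb, Fin.sum_univ_three, vec]) (by
      intro i j hij
      have hq := Q_mul_ge k hij
      rw [va, va, inner_vec]
      simp
      nlinarith) (by
      intro i j hij
      have hq := Q_mul_ge l hij
      rw [vb, vb, inner_vec]
      simp
      nlinarith) (by
      intro i j
      have h1 := Q_ne k hk i
      have h2 := Q_ne l hl j
      rw [va, vb, inner_vec]
      simp
      exact ⟨⟨h1, h2⟩, ht0.ne', ht0'.ne'⟩)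
  refine conclude ?_ v hP hT (p0 := Sum.inr (Sum.inl 0)) (p1 := Sum.inl 0) (p2 := Sum.inl 1)
    (p3 := Sum.inr (Sum.inr 0)) ?_ ?_ ?_ ?_ ?_ ?_ ?_ ?_ ?_
  · simp only [Fintype.card_sum, Fintype.card_fin]; omega
  all_goals simp [T]

/-- the case `r = 3` -/
lemma case3 (k l : ℕ) (hk : 1 ≤ k) (hl : 1 ≤ l) :
    q (T 3 (k + 1) (l + 1))ᶜ = 2 ∧ MB (T 3 (k + 1) (l + 1))ᶜ = 3 := by
  have hk1 : (1 : ℝ) ≤ k := by exact_mod_cast hk
  have hl1 : (1 : ℝ) ≤ l := by exact_mod_cast hl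
  obtain ⟨u, hu0, hu⟩ := exists_root (1 / (10 * ((k : ℝ) + 1))) (by positivity)
  obtain ⟨u', hu0', hu'⟩ := exists_root (1 / (10 * ((l : ℝ) + 1))) (by positivity)
  obtain ⟨s, hs0, hs⟩ := exists_root (5 * u ^ 2) (by positivity)
  obtain ⟨s', hs0', hs'⟩ := exists_root (5 * u' ^ 2) (by positivity)
  obtain ⟨h, hh0, hh⟩ := exists_root (1 / 2) (by positivity)
  have hkk : 1 / (10 * (k : ℝ)) ≤ 1 / 10 := by
    apply one_div_le_one_div_of_le <;> linarith
  have hll : 1 / (10 * (l : ℝ)) ≤ 1 / 10 := by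
    apply one_div_le_one_div_of_le <;> linarith
  obtain ⟨c, hc0, hc⟩ := exists_root (1 - 1 / (10 * (k : ℝ)) - 1 / (10 * (l : ℝ))) (by linarith)
  have hk0 : (0 : ℝ) < k := by linarith
  have hl0 : (0 : ℝ) < l := by linarith
  obtain ⟨t, ht0, ht⟩ : ∃ t : ℝ, 0 < t ∧ t * k = u := ⟨u / k, by positivity, by field_simp⟩
  obtain ⟨t', ht0', ht'⟩ : ∃ t' : ℝ, 0 < t' ∧ t' * l = u' := ⟨u' / l, by positivity, by field_simp⟩
  obtain ⟨v, v0, v1, v2, va, vb⟩ : ∃ v : Fin 3 ⊕ (Fin (k + 1) ⊕ Fin (l + 1)) → Fin 3 → ℝ,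
      v (Sum.inl 0) = ![h, 0, 0] ∧ v (Sum.inl 1) = ![0, 0, c] ∧
      v (Sum.inl 2) = ![3 / 5 * h, 4 / 5 * h, 0] ∧
      (∀ i, v (Sum.inr (Sum.inl i)) = vec ![0, s, 0] ![0, 0, t] (Q k i)) ∧
      (∀ j, v (Sum.inr (Sum.inr j)) = vec ![-(4 / 5 * s'), 3 / 5 * s', 0] ![0, 0, t'] (Q l j)) :=
    ⟨fun x => match x with
      | Sum.inl i => ![![h, 0, 0], ![0, 0, c], ![3 / 5 * h, 4 / 5 * h, 0]] i
      | Sum.inr (Sum.inl i) => vec ![0, s, 0] ![0, 0, t] (Q k i)
      | Sum.inr (Sum.inr j) => vec ![-(4 / 5 * s'), 3 / 5 * s', 0] ![0, 0, t'] (Q l j),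
      rfl, rfl, rfl, fun _ => rfl, fun _ => rfl⟩
  have hku : ((k : ℝ) + 1) * u ^ 2 = 1 / 10 := by rw [hu]; field_simp
  have hlu : ((l : ℝ) + 1) * u' ^ 2 = 1 / 10 := by rw [hu']; field_simp
  have hks : ((k : ℝ) + 1) * s ^ 2 = 1 / 2 := by rw [hs]; linarith
  have hls : ((l : ℝ) + 1) * s' ^ 2 = 1 / 2 := by rw [hs']; linarith
  have hkt : t ^ 2 * (((k : ℝ) + 1) * k) = 1 / (10 * (k : ℝ)) := by
    rw [eq_div_iff (by positivity)]
    calc t ^ 2 * (((k : ℝ) + 1) * k) * (10 * k) = 10 * (((k : ℝ) + 1) * (t * k) ^ 2) := by ring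
      _ = 1 := by rw [ht, hku]; norm_num
  have hlt : t' ^ 2 * (((l : ℝ) + 1) * l) = 1 / (10 * (l : ℝ)) := by
    rw [eq_div_iff (by positivity)]
    calc t' ^ 2 * (((l : ℝ) + 1) * l) * (10 * l) = 10 * (((l : ℝ) + 1) * (t' * l) ^ 2) := by ring
      _ = 1 := by rw [ht', hlu]; norm_num
  have hst : t ^ 2 * k < s ^ 2 := by
    rw [hs, ← ht]
    have : t ^ 2 * k ≤ t ^ 2 * (k * k) := mul_le_mul_of_nonneg_left (by nlinarith) (by positivity)
    have h0 : 0 < t ^ 2 * (k * k) := by positivity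
    nlinarith
  have hst' : t' ^ 2 * l < s' ^ 2 := by
    rw [hs', ← ht']
    have : t' ^ 2 * l ≤ t' ^ 2 * (l * l) := mul_le_mul_of_nonneg_left (by nlinarith) (by positivity)
    have h0 : 0 < t' ^ 2 * (l * l) := by positivity
    nlinarith
  have hsu : 2 * u ≤ s := by
    by_contra hcon
    push Not at hcon
    nlinarith
  have hsu' : 2 * u' ≤ s' := by
    by_contra hcon
    push Not at hcon
    nlinarith
  have hP : ∀ p p', ∑ i, v i p * v i p' = if p = p' then 1 else 0 := by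
    intro p p'
    rw [Fintype.sum_sum_type, Fintype.sum_sum_type, Fin.sum_univ_three, v0, v1, v2]
    simp only [va, vb, sum_vec]
    fin_cases p <;> fin_cases p' <;> simp <;> linarith
  have hT := check v (by
      intro i j hij
      fin_cases i <;> fin_cases j <;> simp at hij ⊢
      · rw [v0, v1, Fin.sum_univ_three]; simp
      · rw [v0, v2, Fin.sum_univ_three]; simp; exact hh0.ne'
      · rw [v1, v2, Fin.sum_univ_three]; simp) (by
      intro i j
      have h1 := Q_ne k hk j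
      fin_cases i
      · simp [v0, va, Fin.sum_univ_three, vec]
      · simp [v1, va, Fin.sum_univ_three, vec]; exact ⟨hc0.ne', h1, ht0.ne'⟩
      · simp [v2, va, Fin.sum_univ_three, vec]; exact ⟨hh0.ne', hs0.ne'⟩) (by
      intro i j
      have h1 := Q_ne l hl j
      fin_cases i
      · simp [v0, vb, Fin.sum_univ_three, vec]; exact ⟨hh0.ne', hs0'.ne'⟩
      · simp [v1, vb, Fin.sum_univ_three, vec]; exact ⟨hc0.ne', h1, ht0'.ne'⟩
      · simp [v2, vb, Fin.sum_univ_three, vec]; ring) (by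
      intro i j hij
      have hq := Q_mul_ge k hij
      rw [va, va, inner_vec]
      simp
      nlinarith) (by
      intro i j hij
      have hq := Q_mul_ge l hij
      rw [vb, vb, inner_vec]
      simp
      nlinarith) (by
      intro i j
      have h1 := Q_abs k hk i
      have h2 := Q_abs l hl j
      rw [va, vb, inner_vec]
      simp
      have h3 : |(Q k i * Q l j) * (t * t')| ≤ u * u' := by
        rw [abs_mul, abs_mul, abs_of_pos (mul_pos ht0 ht0'), ← ht, ← ht']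
        have : |Q k i| * |Q l j| ≤ k * l := mul_le_mul h1 h2 (abs_nonneg _) hk0.le
        calc |Q k i| * |Q l j| * (t * t') ≤ (k * l) * (t * t') :=
              mul_le_mul_of_nonneg_right this (mul_pos ht0 ht0').le
          _ = t * k * (t' * l) := by ring
      have h4 := (abs_le.mp h3).1
      have h5 : (2 * u) * (2 * u') ≤ s * s' := mul_le_mul hsu hsu' (by positivity) hs0.le
      have h6 : 0 < u * u' := mul_pos hu0 hu0'
      have h7 : 0 < s * (3 / 5 * s') + Q k i * Q l j * (t * t') := by nlinarith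
      exact h7.ne')
  refine conclude ?_ v hP hT (p0 := Sum.inr (Sum.inl 0)) (p1 := Sum.inl 0) (p2 := Sum.inl 1)
    (p3 := Sum.inl 2) ?_ ?_ ?_ ?_ ?_ ?_ ?_ ?_ ?_
  · simp only [Fintype.card_sum, Fintype.card_fin]; omega
  all_goals simp [T]

/-- the case `r = 4` -/
lemma case4 (k l : ℕ) (hk : 2 ≤ k) (hl : 2 ≤ l) :
    q (T 4 k l)ᶜ = 2 ∧ MB (T 4 k l)ᶜ = 3 := by
  have hk1 : (2 : ℝ) ≤ k := by exact_mod_cast hk
  have hl1 : (2 : ℝ) ≤ l := by exact_mod_cast hl
  have hk0 : (0 : ℝ) < k := by linarith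
  have hl0 : (0 : ℝ) < l := by linarith
  obtain ⟨ρ, hρ⟩ : ∃ ρ : ℝ, ρ = 1 / (8 * (k * l)) := ⟨_, rfl⟩
  have hρ0 : 0 < ρ := by rw [hρ]; positivity
  have hρkl : ρ * (k * l) = 1 / 8 := by rw [hρ]; field_simp
  have hkl : (4 : ℝ) ≤ k * l := by nlinarith
  have hρ1 : ρ ≤ 1 / 32 := by nlinarith
  obtain ⟨s, hs0, hs⟩ := exists_root (1 / (2 * ((k : ℝ) + 1))) (by positivity)
  obtain ⟨s', hs0', hs'⟩ := exists_root (1 / (2 * ((l : ℝ) + 1))) (by positivity)
  obtain ⟨h, hh0, hh⟩ := exists_root (1 / 2) (by positivity)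
  obtain ⟨t, ht0, ht⟩ := exists_root (ρ / ((k : ℝ) * (k + 1))) (by positivity)
  obtain ⟨t', ht0', ht'⟩ := exists_root ((1 - ρ) / ((l : ℝ) * (l + 1)))
    (by apply div_pos <;> [linarith; positivity])
  have hks : ((k : ℝ) + 1) * s ^ 2 = 1 / 2 := by rw [hs]; field_simp
  have hls : ((l : ℝ) + 1) * s' ^ 2 = 1 / 2 := by rw [hs']; field_simp
  have hkt : t ^ 2 * ((k : ℝ) * (k + 1)) = ρ := by rw [ht]; field_simp
  have hlt : t' ^ 2 * ((l : ℝ) * (l + 1)) = 1 - ρ := by rw [ht']; field_simp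
  obtain ⟨C, hC⟩ : ∃ C : ℝ, C * (s * s') = -(k * l * (t * t')) :=
    ⟨-(k * l * (t * t')) / (s * s'), by field_simp⟩
  have hC2 : C ^ 2 = (1 - ρ) / 2 := by
    have e1 : C ^ 2 * (s ^ 2 * s' ^ 2) = (k * l) ^ 2 * (t ^ 2 * t' ^ 2) := by
      have : (C * (s * s')) ^ 2 = (-(k * l * (t * t'))) ^ 2 := by rw [hC]
      linarith
    have e2 : C ^ 2 * ((((k : ℝ) + 1) * s ^ 2) * (((l : ℝ) + 1) * s' ^ 2))
        = (k * l) * ((t ^ 2 * ((k : ℝ) * (k + 1))) * (t' ^ 2 * ((l : ℝ) * (l + 1)))) := by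
      linear_combination ((k : ℝ) + 1) * ((l : ℝ) + 1) * e1
    rw [hks, hls, hkt, hlt] at e2
    have e3 : (k * l : ℝ) * (ρ * (1 - ρ)) = (1 - ρ) / 8 := by
      linear_combination (1 - ρ) * hρkl
    rw [e3] at e2
    linarith
  obtain ⟨S, hS0, hS⟩ := exists_root (1 - C ^ 2) (by rw [hC2]; linarith)
  have hCne : C ≠ 0 := by
    intro h0
    rw [h0] at hC2
    linarith
  obtain ⟨v, v0, v1, v2, v3, va, vb⟩ : ∃ v : Fin 4 ⊕ (Fin k ⊕ Fin l) → Fin 3 → ℝ,
      v (Sum.inl 0) = ![h, 0, 0] ∧ v (Sum.inl 1) = ![0, s, -(k * t)] ∧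
      v (Sum.inl 2) = ![-(S * s'), C * s', -(l * t')] ∧
      v (Sum.inl 3) = ![C * h, S * h, 0] ∧
      (∀ i, v (Sum.inr (Sum.inl i)) = ![0, s, t]) ∧
      (∀ j, v (Sum.inr (Sum.inr j)) = ![-(S * s'), C * s', t']) :=
    ⟨fun x => match x with
      | Sum.inl i => ![![h, 0, 0], ![0, s, -(k * t)], ![-(S * s'), C * s', -(l * t')],
          ![C * h, S * h, 0]] i
      | Sum.inr (Sum.inl i) => ![0, s, t]
      | Sum.inr (Sum.inr j) => ![-(S * s'), C * s', t'],
      rfl, rfl, rfl, rfl, fun _ => rfl, fun _ => rfl⟩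
  have hP : ∀ p p', ∑ i, v i p * v i p' = if p = p' then 1 else 0 := by
    intro p p'
    rw [Fintype.sum_sum_type, Fintype.sum_sum_type, Fin.sum_univ_four, v0, v1, v2, v3]
    simp only [va, vb]
    have hx : C ^ 2 * (((l : ℝ) + 1) * s' ^ 2) = C ^ 2 / 2 := by rw [hls]; ring
    have hy : S ^ 2 * (((l : ℝ) + 1) * s' ^ 2) = S ^ 2 / 2 := by rw [hls]; ring
    have hz : (C * S) * (((l : ℝ) + 1) * s' ^ 2) = (C * S) / 2 := by rw [hls]; ring
    have hw : C ^ 2 * h ^ 2 = C ^ 2 / 2 := by rw [hh]; ring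
    have hw' : S ^ 2 * h ^ 2 = S ^ 2 / 2 := by rw [hh]; ring
    have hw'' : (C * S) * h ^ 2 = (C * S) / 2 := by rw [hh]; ring
    fin_cases p <;> fin_cases p' <;> simp <;> linarith
  have hpos1 : 0 < t * t' := mul_pos ht0 ht0'
  have hT := check v (by
      intro i j hij
      fin_cases i <;> fin_cases j <;> simp at hij ⊢
      · rw [v0, v1, Fin.sum_univ_three]; simp
      · rw [v0, v2, Fin.sum_univ_three]; simp; exact ⟨hh0.ne', hS0.ne', hs0'.ne'⟩
      · rw [v0, v3, Fin.sum_univ_three]; simp; exact ⟨hh0.ne', hCne, hh0.ne'⟩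
      · rw [v1, v2, Fin.sum_univ_three]; simp; linarith
      · rw [v1, v3, Fin.sum_univ_three]; simp; exact ⟨hs0.ne', hS0.ne', hh0.ne'⟩
      · rw [v2, v3, Fin.sum_univ_three]; simp; ring) (by
      intro i j
      fin_cases i
      · simp [v0, va, Fin.sum_univ_three]
      · simp [v1, va, Fin.sum_univ_three]
        have : 0 < s * s + -(k * t * t) := by nlinarith
        exact this.ne'
      · simp [v2, va, Fin.sum_univ_three]
        have : C * s' * s + -(l * t' * t) < 0 := by nlinarith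
        exact this.ne
      · simp [v3, va, Fin.sum_univ_three]; exact ⟨⟨hS0.ne', hh0.ne'⟩, hs0.ne'⟩) (by
      intro i j
      fin_cases i
      · simp [v0, vb, Fin.sum_univ_three]; exact ⟨hh0.ne', hS0.ne', hs0'.ne'⟩
      · simp [v1, vb, Fin.sum_univ_three]
        have : s * (C * s') + -(k * t * t') < 0 := by nlinarith
        exact this.ne
      · simp [v2, vb, Fin.sum_univ_three]
        have e : S * s' * (S * s') + C * s' * (C * s') + -(l * t' * t')
            = s' ^ 2 - l * t' ^ 2 := by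
          linear_combination (s' ^ 2) * hS
        rw [e]
        have : s' ^ 2 - l * t' ^ 2 < 0 := by nlinarith
        exact this.ne
      · simp [v3, vb, Fin.sum_univ_three]; ring) (by
      intro i j hij
      rw [va, va, Fin.sum_univ_three]
      simp
      have : 0 < s * s + t * t := by positivity
      exact this.ne') (by
      intro i j hij
      rw [vb, vb, Fin.sum_univ_three]
      simp
      have e0 : 0 ≤ C * s' * (C * s') := mul_self_nonneg _
      have e1 : 0 < S * s' * (S * s') + t' * t' := by positivity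
      have e : 0 < S * s' * (S * s') + C * s' * (C * s') + t' * t' := by linarith
      exact e.ne') (by
      intro i j
      rw [va, vb, Fin.sum_univ_three]
      simp
      have : s * (C * s') + t * t' < 0 := by nlinarith
      exact this.ne)
  refine conclude ?_ v hP hT (p0 := Sum.inl 0) (p1 := Sum.inl 1) (p2 := Sum.inl 2)
    (p3 := Sum.inl 3) ?_ ?_ ?_ ?_ ?_ ?_ ?_ ?_ ?_
  · simp only [Fintype.card_sum, Fintype.card_fin]; omega
  all_goals simp [T]

end frames

/-- **Q1 is true.** -/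
theorem result : ∀ r m n : ℕ, (r = 2 ∨ r = 3 ∨ r = 4) → 1 < m → 1 < n →
    q (T r m n)ᶜ = 2 ∧ MB (T r m n)ᶜ = 3 := by
  intro r m n hr hm hn
  rcases hr with rfl | rfl | rfl
  · obtain ⟨k, rfl⟩ : ∃ k, m = k + 1 := ⟨m - 1, by omega⟩
    obtain ⟨l, rfl⟩ : ∃ l, n = l + 1 := ⟨n - 1, by omega⟩
    exact case2 k l (by omega) (by omega)
  · obtain ⟨k, rfl⟩ : ∃ k, m = k + 1 := ⟨m - 1, by omega⟩
    obtain ⟨l, rfl⟩ : ∃ l, n = l + 1 := ⟨n - 1, by omega⟩
    exact case3 k l (by omega) (by omega)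
  · exact case4 m n hm hn

end Pool.Agent.Results.MP_4cbb29_co.DoubleBrooms
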